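import Pool.Agent.L0h99.MN.Stm2

set_option autoImplicit false

/-!
# Project MD: CYC, a circuit in a graph with all degrees two
-/

namespace Pool.Agent.L0h90.MD

open Finset Pool.Agent.L0h99.MN Pool.Agent.L0h99.MD

theorem memN {V : Type} [Fintype V] [DecidableEq V] (H : SimpleGraph V) (x y : V) :
    y ∈ N H x ↔ H.Adj x y := by
  classical
  unfold N
  simp

theorem CYC : St_CYC := by
  classical
  intro V _ _ H R hR hdeg
  obtain ⟨a, ha⟩ := hR
  have hex : ∀ v ∈ R, ∀ u, ∃ w ∈ N H v, w ≠ u := fun v hv u =>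
    Finset.exists_mem_ne (by rw [(hdeg v hv).1]; norm_num) u
  have hex' : ∀ u v : V, ∃ w : V, v ∈ R → (w ∈ N H v ∧ w ≠ u) := by
    intro u v
    by_cases hv : v ∈ R
    · obtain ⟨w, h1, h2⟩ := hex v hv u
      exact ⟨w, fun _ => ⟨h1, h2⟩⟩
    · exact ⟨u, fun h => absurd h hv⟩
  choose g hg using hex'
  obtain ⟨b, hb, _⟩ := hex a ha a
  let s : ℕ → V × V := fun n => Nat.rec (a, b) (fun _ p => (p.2, g p.1 p.2)) n
  have hs0 : s 0 = (a, b) := rfl
  have hss : ∀ i, s (i + 1) = ((s i).2, g (s i).1 (s i).2) := fun _ => rfl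
  have hinv : ∀ i, (s i).1 ∈ R ∧ (s i).2 ∈ N H (s i).1 := by
    intro i
    induction i with
    | zero => exact ⟨ha, hb⟩
    | succ i ih =>
      have h2 : (s i).2 ∈ R := (hdeg _ ih.1).2 ih.2
      exact ⟨h2, (hg (s i).1 (s i).2 h2).1⟩
  set y : ℕ → V := fun i => (s i).1 with hy
  have hyR : ∀ i, y i ∈ R := fun i => (hinv i).1
  have hadj : ∀ i, y (i + 1) ∈ N H (y i) := fun i => (hinv i).2
  have hne2 : ∀ i, y (i + 2) ≠ y i := by
    intro i
    exact (hg (s i).1 (s i).2 ((hdeg _ (hinv i).1).2 (hinv i).2)).2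
  have hadj' : ∀ i, y i ∈ N H (y (i + 1)) := by
    intro i
    rw [memN]
    exact ((memN H _ _).1 (hadj i)).symm
  have hN : ∀ v p q : V, v ∈ R → p ∈ N H v → q ∈ N H v → p ≠ q → N H v = {p, q} := by
    intro v p q hv hp hq hpq
    symm
    apply Finset.eq_of_subset_of_card_le
    · intro z hz
      rcases Finset.mem_insert.1 hz with h | h
      · rw [h]; exact hp
      · rw [Finset.mem_singleton.1 h]; exact hq
    · rw [(hdeg v hv).1, Finset.card_pair hpq]
  -- the smallest distance of a coincidence
  have hP : ∃ n : ℕ, 0 < n ∧ ∃ i, y i = y (i + n) := by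
    have hni : ¬ Function.Injective y := not_injective_infinite_finite y
    rw [Function.Injective] at hni
    push Not at hni
    obtain ⟨i, j, h1, h2⟩ := hni
    rcases lt_or_gt_of_ne h2 with h | h
    · exact ⟨j - i, by omega, i, by rw [h1]; congr 1; omega⟩
    · exact ⟨i - j, by omega, j, by rw [← h1]; congr 1; omega⟩
  obtain ⟨hn0, i, hi⟩ := Nat.find_spec hP
  have hmin : ∀ m : ℕ, 0 < m → m < Nat.find hP → ∀ j, y j ≠ y (j + m) := by
    intro m hm hlt j hj
    exact Nat.find_min hP hlt ⟨hm, j, hj⟩
  set n := Nat.find hP with hn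
  have hn1 : n ≠ 1 := by
    intro h
    rw [h] at hi
    have h1 := (memN H _ _).1 (hadj i)
    rw [← hi] at h1
    exact H.loopless.irrefl _ h1
  have hn2 : n ≠ 2 := by
    intro h
    rw [h] at hi
    exact hne2 i hi.symm
  obtain ⟨k, hk⟩ : ∃ k, n = k + 3 := ⟨n - 3, by omega⟩
  refine ⟨k, fun t => y (i + t.val), ?_, fun t => hyR _, ?_⟩
  · intro t u htu
    by_contra hne
    have hv : t.val ≠ u.val := fun h => hne (Fin.ext h)
    have ht := t.isLt
    have hu := u.isLt
    rcases lt_or_gt_of_ne hv with h | h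
    · exact hmin (u.val - t.val) (by omega) (by omega) (i + t.val) (by
        have e : i + t.val + (u.val - t.val) = i + u.val := by omega
        rw [e]; exact htu)
    · exact hmin (t.val - u.val) (by omega) (by omega) (i + u.val) (by
        have e : i + u.val + (t.val - u.val) = i + t.val := by omega
        rw [e]; exact htu.symm)
  · intro t
    have h1 := Fin.val_add_one t
    have h2 := Fin.coe_sub_one t
    have ht := t.isLt
    show N H (y (i + t.val)) = {y (i + (t + 1).val), y (i + (t - 1).val)}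
    have hgen : ∀ j, N H (y (j + 1)) = {y (j + 2), y j} := fun j =>
      hN _ _ _ (hyR (j + 1)) (hadj (j + 1)) (hadj' j) (hne2 j)
    by_cases ht0 : t = 0
    · have hl : ¬ t = Fin.last (k + 2) := by
        rw [ht0]
        intro h
        have := congrArg Fin.val h
        simp at this
      rw [if_neg hl] at h1
      rw [if_pos ht0] at h2
      have hv0 : t.val = 0 := by rw [ht0]; rfl
      rw [h1, h2, hv0, add_zero, zero_add]
      refine hN _ _ _ (hyR i) (hadj i) ?_ ?_
      · have h3 := hadj' (i + (k + 2))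
        have h4 := hadj (i + (k + 2))
        have e : i + (k + 2) + 1 = i + n := by omega
        rw [e, ← hi] at h3
        exact h3
      · intro h
        apply hmin (k + 1) (by omega) (by omega) (i + 1)
        have e : i + 1 + (k + 1) = i + (k + 2) := by omega
        rw [e]
        exact h
    · rw [if_neg ht0] at h2
      have hv0 : t.val ≠ 0 := fun h => ht0 (Fin.ext h)
      obtain ⟨j, hj⟩ : ∃ j, i + t.val = j + 1 := ⟨i + t.val - 1, by omega⟩
      have h3 := hgen j
      rw [hj, h3, h2]
      have e1 : i + (t.val - 1) = j := by omega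
      rw [e1]
      by_cases hl : t = Fin.last (k + 2)
      · rw [if_pos hl] at h1
        have hv : t.val = k + 2 := by rw [hl]; rfl
        rw [h1, add_zero]
        have e2 : j + 2 = i + n := by omega
        rw [e2, ← hi]
      · rw [if_neg hl] at h1
        rw [h1]
        have e2 : i + (t.val + 1) = j + 2 := by omega
        rw [e2]

end Pool.Agent.L0h90.MD
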